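import Pool.Agent.H34.TAM.Stmts3

/-!
Row PEA of the board `per`
-/

set_option autoImplicit false

noncomputable section

open scoped TensorProduct

namespace Pool.PER

open Pool.CGR Pool.CGS Pool.TAM Pool.AUT MulOpposite

namespace PEA22

theorem ac_sub {m : ℕ} (z w : Te m) (q : Fr m) : ac (z - w) q = ac z q - ac w q := by
  unfold ac
  rw [map_sub, LinearMap.sub_apply]

theorem ac_zero {m : ℕ} (q : Fr m) : ac (0 : Te m) q = 0 := by
  unfold ac
  rw [map_zero, LinearMap.zero_apply]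

theorem ac_one {m : ℕ} (q : Fr m) : ac (1 : Te m) q = q := by
  unfold ac
  rw [map_one, Module.End.one_apply]

theorem ac_sum {m : ℕ} {ι : Type} (s : Finset ι) (f : ι → Te m) (q : Fr m) :
    ac (∑ i ∈ s, f i) q = ∑ i ∈ s, ac (f i) q := by
  unfold ac
  rw [map_sum, LinearMap.sum_apply]

theorem ac_neg' {m : ℕ} (z : Te m) (q : Fr m) : ac z (-q) = -ac z q := by
  unfold ac
  rw [map_neg]

theorem norm_tau {A : Type} [CStarAlgebra A] {τ : A →ₗ[ℂ] ℂ} (h : IsTrace τ) (a : A) :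
    ‖τ a‖ ≤ n2 τ a := by
  have h1 := (two_thm A τ h).1 a 1
  have h2 : n2 τ 1 = 1 := by
    unfold n2
    rw [star_one, mul_one, h.one]
    simp
  rwa [mul_one, h2, mul_one] at h1

section

variable {m : ℕ} {r : ℝ} {ν : Te m → ℝ}

theorem entry (hν : IsNu r ν) (A : Matrix (Fin m) (Fin m) (Te m)) (j k : Fin m) :
    ν (A j k) ≤ nm ν A := by
  unfold nm
  refine le_trans ?_ (Finset.single_le_sum (f := fun j => ∑ k, ν (A j k))
    (fun j _ => Finset.sum_nonneg fun k _ => hν.nonneg _) (Finset.mem_univ j))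
  exact Finset.single_le_sum (f := fun k => ν (A j k)) (fun k _ => hν.nonneg _) (Finset.mem_univ k)

theorem nm_nonneg (hν : IsNu r ν) (A : Matrix (Fin m) (Fin m) (Te m)) : 0 ≤ nm ν A :=
  Finset.sum_nonneg fun _ _ => Finset.sum_nonneg fun _ _ => hν.nonneg _

theorem col (hν : IsNu r ν) (A : Matrix (Fin m) (Fin m) (Te m)) (i : Fin m) :
    ∑ k, ν (A k i) ≤ nm ν A := by
  unfold nm
  refine Finset.sum_le_sum fun k _ => ?_
  exact Finset.single_le_sum (f := fun l => ν (A k l)) (fun k _ => hν.nonneg _) (Finset.mem_univ i)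

theorem dia (hν : IsNu r ν) (A : Matrix (Fin m) (Fin m) (Te m)) :
    ∑ k, ν (A k k) ≤ nm ν A := by
  unfold nm
  refine Finset.sum_le_sum fun k _ => ?_
  exact Finset.single_le_sum (f := fun l => ν (A k l)) (fun k _ => hν.nonneg _) (Finset.mem_univ k)

/-- sums of products of entries -/
theorem prod_entry (hν : IsNu r ν) (A B : Matrix (Fin m) (Fin m) (Te m)) (i : Fin m) :
    ∑ j, ∑ k, ν (A j k) * ν (B k i) ≤ nm ν A * nm ν B := by
  have h : ∑ j, ∑ k, ν (A j k) * ν (B k i) ≤ ∑ j, ∑ k, ν (A j k) * nm ν B :=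
    Finset.sum_le_sum fun j _ => Finset.sum_le_sum fun k _ =>
      mul_le_mul_of_nonneg_left (entry hν B k i) (hν.nonneg _)
  refine h.trans (le_of_eq ?_)
  unfold nm
  rw [Finset.sum_mul]
  refine Finset.sum_congr rfl fun j _ => ?_
  rw [Finset.sum_mul]

end

end PEA22

open PEA22

theorem pea_thm (h1 : DRXStmt) (h2 : TDRStmt) (h3 : NUAStmt) (h4 : NUFStmt) (h5 : NMMStmt)
    (h6 : IDNStmt) (h7 : DIFStmt) : PEAStmt := by
  intro hN hU m A _ τ x r ν hd D hD F L hF hL C hC hCC η h hη hh N' H' hH i P N hNN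
  obtain ⟨hτ, hr, hx, hν⟩ := id hd
  obtain ⟨_, u2, _⟩ := hU m r ν hr hν
  obtain ⟨l1, l2, l3⟩ := h5 m r ν hr hν L hL
  obtain ⟨d1, _, d3, d4⟩ := h7 m D hD
  obtain ⟨t1, t2, _⟩ := (h2 m).2 (tx τ x)
  have htr : ∀ a b, tx τ x (a * b) = tx τ x (b * a) := fun a b => by
    show τ (FreeAlgebra.lift ℂ x (a * b)) = τ (FreeAlgebra.lift ℂ x (b * a))
    rw [map_mul (FreeAlgebra.lift ℂ x), map_mul (FreeAlgebra.lift ℂ x), hτ.comm]
  have t1' := t1 htr
  have hNA := h3 hN m A τ x r ν hd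
  have hNF := h4 hN m A τ x r ν hd D hD C hC hCC
  have hn2 : ∀ a : A, 0 ≤ n2 τ a := fun a => Real.sqrt_nonneg _
  have htn : ∀ a : Fr m, ‖tx τ x a‖ ≤ n2 τ (FreeAlgebra.lift ℂ x a) := fun a => norm_tau hτ _
  obtain ⟨t, ht⟩ : ∃ t, t = tx τ x := ⟨_, rfl⟩
  obtain ⟨φ, hφ⟩ : ∃ φ, φ = FreeAlgebra.lift ℂ F := ⟨_, rfl⟩
  have hφF : ∀ j, φ (io j) = F j := fun j => by
    rw [hφ]
    exact FreeAlgebra.lift_ι_apply _ _
  obtain ⟨q, hq⟩ : ∃ q, q = φ P := ⟨_, rfl⟩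
  obtain ⟨n, hn⟩ : ∃ n, n = n2 τ (FreeAlgebra.lift ℂ x q) := ⟨_, rfl⟩
  obtain ⟨S, hS⟩ : ∃ S, S = geo L N := ⟨_, rfl⟩
  obtain ⟨Λ, hΛ⟩ : ∃ Λ, Λ = L ^ (N + 1) := ⟨_, rfl⟩
  rw [← hφ] at hH
  rw [← hφ, ← hq, ← hn]
  rw [← ht] at t1' t2 hCC hh hH htn
  rw [← ht]
  have hn0 : 0 ≤ n := by
    rw [hn]
    exact hn2 _
  obtain ⟨δ, hδ, hδk⟩ := h1 m (fun k => ac (S k i) q)
  have hSn : nm ν S ≤ m + 1 := by
    rw [hS]
    exact l2 N
  have hΛn : nm ν Λ ≤ (1 / 2) ^ (N + 1) := by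
    rw [hΛ]
    exact l1 N
  have hΛ0 : 0 ≤ nm ν Λ := nm_nonneg hν _
  have hS0 : 0 ≤ nm ν S := nm_nonneg hν _
  -- telescoping
  have htel : (1 - L) * S = 1 - Λ := by
    rw [hS, hΛ]
    exact mul_neg_geom_sum L (N + 1)
  have hb : ∀ j, δ (F j) = (if j = i then q else 0) + -(ac (Λ j i) q) := by
    intro j
    rw [d3 δ hδ]
    have e1 : ∀ k, ac (D k (F j)) (δ (io k)) = ac ((1 - L) j k * S k i) q := fun k => by
      rw [hδk, hF, d1]
    rw [Finset.sum_congr rfl fun k _ => e1 k, ← ac_sum, ← Matrix.mul_apply, htel,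
      Matrix.sub_apply, ac_sub, sub_eq_add_neg]
    congr 1
    by_cases hji : j = i
    · rw [if_pos hji, hji, Matrix.one_apply_eq, ac_one]
    · rw [if_neg hji, Matrix.one_apply_ne hji, ac_zero]
  have hI := h6 m D hD t (by rw [ht]; exact htr) F L hF N δ hδ i P (fun j => -(ac (Λ j i) q))
    (fun j => by rw [← hφ, ← hq]; exact hb j)
  rw [← hφ, ← hS, ← hΛ] at hI
  -- `s`
  obtain ⟨s, hs⟩ : ∃ s, s = ∑ k, n2 τ (FreeAlgebra.lift ℂ x (δ (io k))) := ⟨_, rfl⟩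
  have hs0 : 0 ≤ s := by
    rw [hs]
    exact Finset.sum_nonneg fun k _ => hn2 _
  have hsn : s ≤ (m + 1) * n := by
    have e1 : s ≤ ∑ k, ν (S k i) * n := by
      rw [hs]
      refine Finset.sum_le_sum fun k _ => ?_
      rw [hδk, hn]
      exact (hNA (S k i)).1 q
    refine e1.trans ?_
    rw [← Finset.sum_mul]
    exact mul_le_mul_of_nonneg_right ((col hν S i).trans hSn) hn0
  -- (1)
  have b1 : ‖∑ k, tt t (D k (δ (io k))) - t (δ h)‖ ≤ η * s := by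
    rw [hs]
    exact hh δ hδ
  -- (2)
  obtain ⟨W, hW⟩ : ∃ W, W = ∑ j, re t (lo L N' j j) := ⟨_, rfl⟩
  rw [← hW] at hH
  have e2 : t (δ W) = ∑ j, tt t (d2 δ (lo L N' j j)) := by
    rw [hW, map_sum, map_sum]
    exact Finset.sum_congr rfl fun j _ => (t2 δ _).symm
  have b2 : ‖t (δ (h - W - φ H'))‖ ≤ η * s := by
    rw [d3 δ hδ (h - W - φ H'), map_sum]
    refine (norm_sum_le _ _).trans ?_
    rw [hs, Finset.mul_sum]
    refine Finset.sum_le_sum fun k _ => (htn _).trans ?_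
    refine ((hNA _).1 _).trans ?_
    exact mul_le_mul_of_nonneg_right (hH k) (hn2 _)
  -- (3)
  have b3 : ‖∑ j, tt t (d2 δ (lo L N' j j)) - ∑ j, tt t (d2 δ (lo L N j j))‖ ≤
      (1 / 2) ^ N' * s := by
    have e1 : ∑ j, tt t (d2 δ (lo L N' j j)) - ∑ j, tt t (d2 δ (lo L N j j)) =
        -∑ j, tt t (d2 δ ((lo L N - lo L N') j j)) := by
      rw [← Finset.sum_sub_distrib, ← Finset.sum_neg_distrib]
      refine Finset.sum_congr rfl fun j _ => ?_
      rw [Matrix.sub_apply, map_sub, map_sub]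
      ring
    rw [e1, norm_neg]
    refine (norm_sum_le _ _).trans ?_
    have e2 : ∀ j ∈ Finset.univ, ‖tt t (d2 δ ((lo L N - lo L N') j j))‖ ≤
        ν ((lo L N - lo L N') j j) * s := fun j _ => by
      rw [ht, hs]
      exact (hNA _).2.2 δ hδ
    refine (Finset.sum_le_sum e2).trans ?_
    rw [← Finset.sum_mul]
    exact mul_le_mul_of_nonneg_right ((dia hν _).trans (l3 N N' hNN)) hs0
  -- (4)
  have b4 : ‖∑ j, ∑ k, tt t (Λ j k * D j (δ (io k)))‖ ≤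
      (1 / 2) ^ (N + 1) * ((C + 4) * (m + 1) * n) := by
    have e1 : ∀ j k, ‖tt t (Λ j k * D j (δ (io k)))‖ ≤ (ν (Λ j k) * ν (S k i)) * ((C + 4) * n) := by
      intro j k
      rw [t1', hδk, ht, hn]
      refine (hNF j (S k i) (Λ j k) q).trans (le_of_eq ?_)
      ring
    refine (norm_sum_le _ _).trans ((Finset.sum_le_sum fun j _ =>
      (norm_sum_le _ _).trans (Finset.sum_le_sum fun k _ => e1 j k)).trans ?_)
    have e2 : ∑ j, ∑ k, ν (Λ j k) * ν (S k i) * ((C + 4) * n) =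
        (∑ j, ∑ k, ν (Λ j k) * ν (S k i)) * ((C + 4) * n) := by
      rw [Finset.sum_mul]
      exact Finset.sum_congr rfl fun j _ => (Finset.sum_mul _ _ _).symm
    rw [e2]
    have hc : 0 ≤ (C + 4) * n := mul_nonneg (by linarith) hn0
    have e3 : nm ν Λ * nm ν S ≤ (1 / 2) ^ (N + 1) * (m + 1) :=
      mul_le_mul hΛn hSn hS0 (by positivity)
    refine (mul_le_mul_of_nonneg_right ((prod_entry hν Λ S i).trans e3) hc).trans (le_of_eq ?_)
    ring
  -- (5)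
  have b5 : ‖∑ j, ∑ k, tt t (S j k * D j (-(ac (Λ k i) q)))‖ ≤
      (1 / 2) ^ (N + 1) * ((C + 4) * (m + 1) * n) := by
    have e1 : ∀ j k, ‖tt t (S j k * D j (-(ac (Λ k i) q)))‖ ≤
        (ν (S j k) * ν (Λ k i)) * ((C + 4) * n) := by
      intro j k
      have e0 : tt t (D j (-(ac (Λ k i) q)) * S j k) = -tt t (D j (ac (Λ k i) q) * S j k) := by
        rw [eq_neg_iff_add_eq_zero, ← map_add, ← add_mul, ← map_add, neg_add_cancel, map_zero,
          zero_mul, map_zero]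
      rw [t1', e0, norm_neg, ht, hn]
      refine (hNF j (Λ k i) (S j k) q).trans (le_of_eq ?_)
      ring
    refine (norm_sum_le _ _).trans ((Finset.sum_le_sum fun j _ =>
      (norm_sum_le _ _).trans (Finset.sum_le_sum fun k _ => e1 j k)).trans ?_)
    have e2 : ∑ j, ∑ k, ν (S j k) * ν (Λ k i) * ((C + 4) * n) =
        (∑ j, ∑ k, ν (S j k) * ν (Λ k i)) * ((C + 4) * n) := by
      rw [Finset.sum_mul]
      exact Finset.sum_congr rfl fun j _ => (Finset.sum_mul _ _ _).symm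
    rw [e2]
    have hc : 0 ≤ (C + 4) * n := mul_nonneg (by linarith) hn0
    have e3 : nm ν S * nm ν Λ ≤ (m + 1) * (1 / 2) ^ (N + 1) :=
      mul_le_mul hSn hΛn hΛ0 (by positivity)
    refine (mul_le_mul_of_nonneg_right ((prod_entry hν S Λ i).trans e3) hc).trans (le_of_eq ?_)
    ring
  -- (6)
  have b6 : ‖∑ k, tt t (ph φ (D k P) * Λ k i)‖ ≤ (1 / 2) ^ (N + 1) * ∑ k, ν (ph φ (D k P)) := by
    refine (norm_sum_le _ _).trans ?_
    rw [Finset.mul_sum]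
    refine Finset.sum_le_sum fun k _ => ?_
    rw [ht]
    refine (hNA _).2.1.trans ((u2 _ _).trans ?_)
    rw [mul_comm]
    exact mul_le_mul_of_nonneg_right ((entry hν Λ k i).trans hΛn) (hν.nonneg _)
  -- (7)
  have b7 : ‖∑ j, t (ac (ph φ (D j H') * Λ j i) q)‖ ≤
      (1 / 2) ^ (N + 1) * ((∑ j, ν (ph φ (D j H'))) * n) := by
    refine (norm_sum_le _ _).trans ?_
    rw [Finset.sum_mul, Finset.mul_sum]
    refine Finset.sum_le_sum fun j _ => (htn _).trans (((hNA _).1 _).trans ?_)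
    rw [← hn, ← mul_assoc]
    refine mul_le_mul_of_nonneg_right ((u2 _ _).trans ?_) hn0
    rw [mul_comm]
    exact mul_le_mul_of_nonneg_right ((entry hν Λ j i).trans hΛn) (hν.nonneg _)
  -- `t (δ (φ H'))`
  have e8 : t (δ (φ H')) = t (ac (ph φ (D i H')) q) - ∑ j, t (ac (ph φ (D j H') * Λ j i) q) := by
    rw [d4 δ hδ φ H', map_sum]
    have e1 : ∀ j, t (ac (ph φ (D j H')) (δ (φ (io j)))) =
        (if j = i then t (ac (ph φ (D j H')) q) else 0) - t (ac (ph φ (D j H') * Λ j i) q) := by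
      intro j
      rw [hφF, hb, d1]
      by_cases hji : j = i
      · rw [if_pos hji, if_pos hji]
        unfold ac
        rw [map_add, map_neg, map_add, map_neg]
        ring
      · rw [if_neg hji, if_neg hji, zero_add, ac_neg', map_neg]
        ring
    rw [Finset.sum_congr rfl fun j _ => e1 j, Finset.sum_sub_distrib, Finset.sum_ite_eq']
    simp
  have e9 : t (δ (h - W - φ H')) = t (δ h) - t (δ W) - t (δ (φ H')) := by
    rw [map_sub, map_sub, map_sub, map_sub]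
  have e10 : tt t (ph φ (D i P)) - t (ac (ph φ (D i H')) q) =
      (∑ k, tt t (D k (δ (io k))) - t (δ h)) + t (δ (h - W - φ H')) +
      (∑ j, tt t (d2 δ (lo L N' j j)) - ∑ j, tt t (d2 δ (lo L N j j))) -
      ∑ j, ∑ k, tt t (Λ j k * D j (δ (io k))) -
      ∑ j, ∑ k, tt t (S j k * D j (-(ac (Λ k i) q))) +
      ∑ k, tt t (ph φ (D k P) * Λ k i) - ∑ j, t (ac (ph φ (D j H') * Λ j i) q) := by
    rw [hI, e9, e2, e8]
    ring
  rw [e10]
  have g1 := norm_sub_le ((∑ k, tt t (D k (δ (io k))) - t (δ h)) + t (δ (h - W - φ H')) +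
      (∑ j, tt t (d2 δ (lo L N' j j)) - ∑ j, tt t (d2 δ (lo L N j j))) -
      ∑ j, ∑ k, tt t (Λ j k * D j (δ (io k))) -
      ∑ j, ∑ k, tt t (S j k * D j (-(ac (Λ k i) q))) +
      ∑ k, tt t (ph φ (D k P) * Λ k i)) (∑ j, t (ac (ph φ (D j H') * Λ j i) q))
  have g2 := norm_add_le ((∑ k, tt t (D k (δ (io k))) - t (δ h)) + t (δ (h - W - φ H')) +
      (∑ j, tt t (d2 δ (lo L N' j j)) - ∑ j, tt t (d2 δ (lo L N j j))) -
      ∑ j, ∑ k, tt t (Λ j k * D j (δ (io k))) -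
      ∑ j, ∑ k, tt t (S j k * D j (-(ac (Λ k i) q)))) (∑ k, tt t (ph φ (D k P) * Λ k i))
  have g3 := norm_sub_le ((∑ k, tt t (D k (δ (io k))) - t (δ h)) + t (δ (h - W - φ H')) +
      (∑ j, tt t (d2 δ (lo L N' j j)) - ∑ j, tt t (d2 δ (lo L N j j))) -
      ∑ j, ∑ k, tt t (Λ j k * D j (δ (io k)))) (∑ j, ∑ k, tt t (S j k * D j (-(ac (Λ k i) q))))
  have g4 := norm_sub_le ((∑ k, tt t (D k (δ (io k))) - t (δ h)) + t (δ (h - W - φ H')) +
      (∑ j, tt t (d2 δ (lo L N' j j)) - ∑ j, tt t (d2 δ (lo L N j j))))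
      (∑ j, ∑ k, tt t (Λ j k * D j (δ (io k))))
  have g5 := norm_add_le ((∑ k, tt t (D k (δ (io k))) - t (δ h)) + t (δ (h - W - φ H')))
      (∑ j, tt t (d2 δ (lo L N' j j)) - ∑ j, tt t (d2 δ (lo L N j j)))
  have g6 := norm_add_le (∑ k, tt t (D k (δ (io k))) - t (δ h)) (t (δ (h - W - φ H')))
  have g7 : (2 * η + (1 / 2) ^ N') * s ≤ (2 * η + (1 / 2) ^ N') * ((m + 1) * n) :=
    mul_le_mul_of_nonneg_left hsn (by positivity)
  have g8 : (1 / 2 : ℝ) ^ (N + 1) * ((2 * (C + 4) * (m + 1) + ∑ j, ν (ph φ (D j H'))) * n +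
      ∑ k, ν (ph φ (D k P))) = (1 / 2) ^ (N + 1) * ((C + 4) * (m + 1) * n) +
      (1 / 2) ^ (N + 1) * ((C + 4) * (m + 1) * n) +
      (1 / 2) ^ (N + 1) * ((∑ j, ν (ph φ (D j H'))) * n) +
      (1 / 2) ^ (N + 1) * ∑ k, ν (ph φ (D k P)) := by ring
  rw [g8]
  have g9 : (2 * η + (1 / 2) ^ N') * (m + 1) * n = (2 * η + (1 / 2) ^ N') * ((m + 1) * n) := by ring
  rw [g9]
  linarith

end Pool.PER
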